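import Pool.Agent.Q121.LC.Ex

/-!
A commutative ring which is weakly Lee 2-coherent but not Lee 2-coherent.
-/

open CategoryTheory

namespace Pool.Agent.Results.MP_0b9bd1_al.NotLeeCoherent

/-- `R` is (left) Lee `n`-coherent, `n ≥ 1`: every finitely generated submodule `K` of a free
module `R ^ m` with projective dimension `< n` (that is, at most `n - 1`) is finitely presented. -/
def LeeCoherent (n : ℕ) (R : Type) [Ring R] : Prop :=
  ∀ (m : ℕ) (K : Submodule R (Fin m → R)), K.FG →
    HasProjectiveDimensionLT (ModuleCat.of R K) n → Module.FinitePresentation R K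

/-- `R` is weakly (left) Lee `n`-coherent, `n ≥ 1`: every finitely generated left ideal `I` with
projective dimension `< n` (that is, at most `n - 1`) is finitely presented. -/
def WeaklyLeeCoherent (n : ℕ) (R : Type) [Ring R] : Prop :=
  ∀ I : Ideal R, I.FG →
    HasProjectiveDimensionLT (ModuleCat.of R I) n → Module.FinitePresentation R I

/-- There is a commutative ring that is weakly Lee 2-coherent and not Lee 2-coherent. -/
theorem result : ∃ (R : Type) (_ : CommRing R), WeaklyLeeCoherent 2 R ∧ ¬ LeeCoherent 2 R := by
  refine ⟨Q121.LC.RR Q121.LC.ρ0, inferInstance, Q121.LC.final.1, ?_⟩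
  intro h
  obtain ⟨K, h1, h2, h3⟩ := Q121.LC.final.2
  exact h3 (h 2 K h1 h2)

end Pool.Agent.Results.MP_0b9bd1_al.NotLeeCoherent
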